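import Pool.Agent.Lib.MP_d610d0_nt.CH.D.P.sb

/-!
# MP_d610d0_nt, section D, piece [CD cb]: comparison of short and long windows
-/

set_option autoImplicit false

namespace Pool.Agent.CH.D

open Finset MeasureTheory ArithmeticFunction
open Pool.Agent.MP89da58 (tri primChars)
open Pool.Agent.CH.V (pz)

theorem p_cb (htri : S_tri) (hsp : S_sp) (hlsi : S_lsi) (hmv : S_mv) : S_cb := by
  obtain ⟨κ, C0, hκ⟩ := htri
  obtain ⟨C1, hC1, hls⟩ := hlsi
  obtain ⟨C2, hC2, hmain⟩ := cd_fou_main hmv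
  have hC0 := cd_fou_C hκ
  refine ⟨32 * C0 ^ 2 * (1 + C1 * C2), by positivity, ?_⟩
  intro J M N hJ α β S T lam hS hT hlam1 hlamJ hbd
  have hJ0 : (0 : ℝ) < J := by exact_mod_cast (by omega : 0 < J)
  have hlam0 : 0 < lam := by linarith
  have hn1 : 0 ≤ n1 M α := (norm_nonneg _).trans (cd_mv_DP_le M α 0)
  have hn2 : 0 ≤ n1 N β := (norm_nonneg _).trans (cd_mv_DP_le N β 0)
  set K : ℝ → ℝ := fun t => κ (t / (2 * (J : ℝ))) - κ (t / lam) with hK
  have hKc : Continuous K := by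
    have := hκ.cont
    fun_prop
  -- bounds for the kernel
  have hK1 : ∀ t, |K t| ≤ 4 * C0 / (1 + (t / J) ^ 2) := by
    intro t
    have h1 : κ (t / (2 * (J : ℝ))) ≤ C0 / (1 + (t / (2 * J)) ^ 2) := hκ.le _
    have h2 : κ (t / lam) ≤ C0 / (1 + (t / (2 * J)) ^ 2) := by
      refine (hκ.le _).trans (div_le_div_of_nonneg_left hC0 (by positivity) ?_)
      have h3 : (t / (2 * (J : ℝ))) ^ 2 ≤ (t / lam) ^ 2 := by
        rw [div_pow, div_pow]
        refine div_le_div_of_nonneg_left (by positivity) (by positivity) ?_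
        exact pow_le_pow_left₀ hlam0.le (by linarith) 2
      linarith
    have h3 := hκ.nn (t / (2 * (J : ℝ)))
    have h4 := hκ.nn (t / lam)
    have h5 : |K t| ≤ C0 / (1 + (t / (2 * J)) ^ 2) := by
      rw [hK, abs_le]
      constructor
      · show -_ ≤ κ (t / (2 * (J : ℝ))) - κ (t / lam)
        linarith
      · show κ (t / (2 * (J : ℝ))) - κ (t / lam) ≤ _
        linarith
    refine h5.trans ?_
    rw [div_eq_mul_one_div]
    refine (mul_le_mul_of_nonneg_left (cd_sb_scale hJ0 t) hC0).trans (le_of_eq ?_)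
    ring
  have hK2 : ∀ t, |t| ≤ T → |K t| ≤ 2 * C0 * (T ^ 2 / lam ^ 2) := by
    intro t ht
    have h1 := hκ.near (t / (2 * (J : ℝ)))
    have h2 := hκ.near (t / lam)
    have ht2 : t ^ 2 ≤ T ^ 2 := by rw [← sq_abs]; exact pow_le_pow_left₀ (abs_nonneg _) ht 2
    have h3 : (t / (2 * (J : ℝ))) ^ 2 ≤ T ^ 2 / lam ^ 2 := by
      rw [div_pow]
      refine div_le_div₀ (by positivity) ht2 (by positivity) ?_
      exact pow_le_pow_left₀ hlam0.le (by linarith) 2
    have h4 : (t / lam) ^ 2 ≤ T ^ 2 / lam ^ 2 := by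
      rw [div_pow]
      exact div_le_div_of_nonneg_right ht2 (by positivity)
    have h5 : |K t| ≤ |κ (t / (2 * (J : ℝ))) - κ 0| + |κ (t / lam) - κ 0| := by
      have : K t = (κ (t / (2 * (J : ℝ))) - κ 0) - (κ (t / lam) - κ 0) := by rw [hK]; ring
      rw [this]
      exact abs_sub _ _
    have h6 := mul_le_mul_of_nonneg_left h3 hC0
    have h7 := mul_le_mul_of_nonneg_left h4 hC0
    linarith
  -- the far part
  set E : Set ℝ := {t | T < |t|} with hE
  have hEm : MeasurableSet E := (isOpen_lt continuous_const continuous_abs).measurableSet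
  set P : ℝ → ℂ := fun t => ((K t : ℝ) : ℂ) * (DP M α t * DP N β t) with hP
  have hPc : Continuous P := by
    have := cd_mv_DP_cont M α
    have := cd_mv_DP_cont N β
    fun_prop
  have hPb : ∀ t, ‖P t‖ ≤ (4 * C0) * (‖DP M α t‖ * ‖DP N β t‖) / (1 + (t / J) ^ 2) := by
    intro t
    rw [hP]
    simp only
    rw [norm_mul, norm_mul, Complex.norm_real, Real.norm_eq_abs]
    have h1 := mul_le_mul_of_nonneg_right (hK1 t)
      (by positivity : 0 ≤ ‖DP M α t‖ * ‖DP N β t‖)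
    refine h1.trans (le_of_eq ?_)
    ring
  obtain ⟨hI1, hI2, hI3⟩ := hmain J M N hJ α β S hS E
    (fun t ht ht3 => hbd t (le_of_lt ht) ht3) (E.indicator P) (4 * C0) (by positivity)
    (hPc.aestronglyMeasurable.indicator hEm)
    (fun t ht => by rw [Set.indicator_of_mem ht]; exact hPb t)
    (fun t ht => Set.indicator_of_notMem ht P)
  have h2 := hls J (by omega) (E.indicator P) hI1 hI2
  have h2' := h2.trans (mul_le_mul_of_nonneg_left hI3 (by positivity))
  -- everything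
  have hex : ∀ (j : ℕ) (t : ℝ), ‖Complex.exp (Complex.I * ((t * yj j : ℝ) : ℂ))‖ = 1 := by
    intro j t
    rw [mul_comm, Complex.norm_exp_ofReal_mul_I]
  have hexc : ∀ j : ℕ, Continuous fun t : ℝ => Complex.exp (Complex.I * ((t * yj j : ℝ) : ℂ)) := by
    intro j
    fun_prop
  have hPI : Integrable P := by
    refine Integrable.mono' ((cd_mv_int hJ0).const_mul (4 * C0 * (n1 M α * n1 N β)))
      hPc.aestronglyMeasurable ?_
    refine Filter.Eventually.of_forall fun t => (hPb t).trans ?_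
    rw [mul_one_div]
    refine div_le_div_of_nonneg_right (mul_le_mul_of_nonneg_left ?_ (by positivity))
      (by positivity)
    exact mul_le_mul (cd_mv_DP_le M α t) (cd_mv_DP_le N β t) (norm_nonneg _) hn1
  have hPe : ∀ j : ℕ, Integrable fun t => P t * Complex.exp (Complex.I * ((t * yj j : ℝ) : ℂ)) := by
    intro j
    refine hPI.mul_bdd (c := 1) (hexc j).aestronglyMeasurable ?_
    exact Filter.Eventually.of_forall fun t => (hex j t).le
  have hall : ∀ j : ℕ, 2 * (J : ℂ) * BW J j M N α β - (lam : ℂ) * BL lam j M N α β =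
      (∫ t in Eᶜ, P t * Complex.exp (Complex.I * ((t * yj j : ℝ) : ℂ))) +
        ∫ t : ℝ, E.indicator P t * Complex.exp (Complex.I * ((t * yj j : ℝ) : ℂ)) := by
    intro j
    have e1 : ∫ t : ℝ, E.indicator P t * Complex.exp (Complex.I * ((t * yj j : ℝ) : ℂ)) =
        ∫ t in E, P t * Complex.exp (Complex.I * ((t * yj j : ℝ) : ℂ)) := by
      rw [← integral_indicator hEm]
      congr 1
      funext t
      by_cases ht : t ∈ E
      · rw [Set.indicator_of_mem ht, Set.indicator_of_mem ht]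
      · rw [Set.indicator_of_notMem ht, Set.indicator_of_notMem ht, zero_mul]
    rw [e1, add_comm, integral_add_compl hEm (hPe j),
      ← cd_fou_BW hsp hκ (by omega : 1 ≤ J) j M N α β, ← cd_fou_BL hsp hκ hlam0 j M N α β,
      ← integral_sub (cd_fou_prod hκ (by positivity) _ _ _ _ _)
        (cd_fou_prod hκ hlam0 _ _ _ _ _)]
    congr 1
    funext t
    rw [hP, hK]
    push_cast
    ring
  have hnear : ∀ j : ℕ, ‖∫ t in Eᶜ, P t * Complex.exp (Complex.I * ((t * yj j : ℝ) : ℂ))‖ ≤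
      4 * C0 * (T ^ 3 / lam ^ 2) * (n1 M α * n1 N β) := by
    intro j
    have hEc : Eᶜ = Set.Icc (-T) T := by
      ext t
      rw [Set.mem_compl_iff, hE, Set.mem_ofPred_eq, not_lt, abs_le, Set.mem_Icc]
    rw [hEc]
    have h3 := norm_setIntegral_le_of_norm_le_const (μ := volume) (s := Set.Icc (-T) T)
      (f := fun t => P t * Complex.exp (Complex.I * ((t * yj j : ℝ) : ℂ)))
      (C := 2 * C0 * (T ^ 2 / lam ^ 2) * (n1 M α * n1 N β)) (by
        rw [Real.volume_Icc]; exact ENNReal.ofReal_lt_top) (by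
        intro t ht
        rw [norm_mul, hex, mul_one, hP]
        simp only
        rw [norm_mul, norm_mul, Complex.norm_real, Real.norm_eq_abs]
        have h4 := hK2 t (abs_le.2 ht)
        have h5 : ‖DP M α t‖ * ‖DP N β t‖ ≤ n1 M α * n1 N β :=
          mul_le_mul (cd_mv_DP_le M α t) (cd_mv_DP_le N β t) (norm_nonneg _) hn1
        exact mul_le_mul h4 h5 (by positivity) (by positivity))
    refine h3.trans (le_of_eq ?_)
    rw [Real.volume_real_Icc_of_le (by linarith)]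
    ring
  have hsq : ∀ a b : ℂ, ‖a + b‖ ^ 2 ≤ 2 * ‖a‖ ^ 2 + 2 * ‖b‖ ^ 2 := by
    intro a b
    have h3 := norm_add_le a b
    have h4 := pow_le_pow_left₀ (norm_nonneg _) h3 2
    nlinarith [sq_nonneg (‖a‖ - ‖b‖)]
  have hsum : ∑ j ∈ Ioc J (2 * J),
      ‖2 * (J : ℂ) * BW J j M N α β - (lam : ℂ) * BL lam j M N α β‖ ^ 2 ≤
      ∑ j ∈ Ioc J (2 * J), (2 * (4 * C0 * (T ^ 3 / lam ^ 2) * (n1 M α * n1 N β)) ^ 2 +
        2 * ‖∫ t : ℝ, E.indicator P t * Complex.exp (Complex.I * ((t * yj j : ℝ) : ℂ))‖ ^ 2) := by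
    refine Finset.sum_le_sum fun j _ => ?_
    rw [hall j]
    refine (hsq _ _).trans ?_
    have h3 := pow_le_pow_left₀ (norm_nonneg _) (hnear j) 2
    linarith
  refine hsum.trans ?_
  rw [Finset.sum_add_distrib, ← Finset.mul_sum, Finset.sum_const, Nat.card_Ioc, nsmul_eq_mul]
  have hcard : ((2 * J - J : ℕ) : ℝ) = J := by
    have : 2 * J - J = J := by omega
    rw [this]
  rw [hcard]
  have hn2' : 0 ≤ n2 N β := by
    unfold n2
    exact Finset.sum_nonneg fun m _ => by positivity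
  set Q : ℝ := n1 M α * n1 N β with hQ
  have hQ0 : 0 ≤ Q := mul_nonneg hn1 hn2
  have e1 : C1 * (J : ℝ) * (C2 * (4 * C0) ^ 2 * (S ^ 2 * ((J : ℝ) + N) * n2 N β + Q ^ 2 / J)) =
      16 * C0 ^ 2 * (C1 * C2) * ((J : ℝ) ^ 2 * S ^ 2 * (1 + (N : ℝ) / J) * n2 N β + Q ^ 2) := by
    field_simp
    ring
  rw [e1] at h2'
  have e2 : 2 * ((J : ℝ) * (4 * C0 * (T ^ 3 / lam ^ 2) * Q) ^ 2) =
      32 * C0 ^ 2 * (Q ^ 2 * (J * (T ^ 3 / lam ^ 2) ^ 2)) := by ring
  rw [e2, ← Finset.mul_sum]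
  have n1' : 0 ≤ 32 * C0 ^ 2 * ((J : ℝ) ^ 2 * S ^ 2 * (1 + (N : ℝ) / J) * n2 N β + Q ^ 2) := by
    positivity
  have n2' : 0 ≤ 32 * C0 ^ 2 * (C1 * C2) * (Q ^ 2 * (J * (T ^ 3 / lam ^ 2) ^ 2)) := by
    have := mul_nonneg hC1 hC2
    positivity
  linarith

end Pool.Agent.CH.D
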