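import Pool.Agent.Lib.MP_d610d0_nt.CH.D.P.mv

/-!
# MP_d610d0_nt, section D: common lemmas for the pieces [CD sb] and [CD cb]
-/

set_option autoImplicit false

namespace Pool.Agent.CH.D

open Finset MeasureTheory ArithmeticFunction
open Pool.Agent.MP89da58 (tri primChars)
open Pool.Agent.CH.V (pz)

theorem cd_fou_C {κ : ℝ → ℝ} {C : ℝ} (h : Kap κ C) : 0 ≤ C := by
  have h1 := h.nn 0
  have h2 := h.le 0
  simp only [ne_eq, OfNat.ofNat_ne_zero, not_false_eq_true, zero_pow, add_zero, div_one] at h2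
  linarith

theorem cd_fou_int {κ : ℝ → ℝ} {C : ℝ} (h : Kap κ C) : Integrable κ := by
  refine Integrable.mono' (integrable_inv_one_add_sq.const_mul C) h.cont.aestronglyMeasurable ?_
  refine Filter.Eventually.of_forall fun t => ?_
  rw [Real.norm_of_nonneg (h.nn t), ← div_eq_mul_inv]
  exact h.le t

/-- integrability of the products -/
theorem cd_fou_prod {κ : ℝ → ℝ} {C : ℝ} (h : Kap κ C) {μ : ℝ} (hμ : 0 < μ) (y : ℝ) (M N : ℕ)
    (α β : ℕ → ℂ) : Integrable (fun t : ℝ => ((κ (t / μ) : ℝ) : ℂ) *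
      (DP M α t * DP N β t * Complex.exp (Complex.I * ((t * y : ℝ) : ℂ)))) := by
  have h1 : Integrable (fun t : ℝ => ((κ (t / μ) : ℝ) : ℂ)) :=
    ((cd_fou_int h).comp_div hμ.ne').ofReal
  refine h1.mul_bdd (c := n1 M α * n1 N β) ?_ ?_
  · apply Continuous.aestronglyMeasurable
    have := cd_mv_DP_cont M α
    have := cd_mv_DP_cont N β
    fun_prop
  · refine Filter.Eventually.of_forall fun t => ?_
    have e : ‖Complex.exp (Complex.I * ((t * y : ℝ) : ℂ))‖ = 1 := by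
      rw [mul_comm, Complex.norm_exp_ofReal_mul_I]
    rw [norm_mul, norm_mul, e, mul_one]
    have h2 := cd_mv_DP_le M α t
    have h3 := cd_mv_DP_le N β t
    have h4 : 0 ≤ n1 M α := (norm_nonneg _).trans h2
    exact mul_le_mul h2 h3 (norm_nonneg _) h4

/-- the Fourier representation of the windows -/
theorem cd_fou_rep {κ : ℝ → ℝ} {C : ℝ} (h : Kap κ C) {μ : ℝ} (hμ : 0 < μ) (y : ℝ) (M N : ℕ)
    (α β : ℕ → ℂ) : ∫ t : ℝ, ((κ (t / μ) : ℝ) : ℂ) *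
      (DP M α t * DP N β t * Complex.exp (Complex.I * ((t * y : ℝ) : ℂ))) =
      (μ : ℂ) * ∑ m ∈ Icc 1 M, ∑ n ∈ Icc 1 N, α m * β n *
        ((tri (μ * (y - Real.log m - Real.log n)) : ℝ) : ℂ) := by
  have h1 := Measure.integral_comp_div (fun x : ℝ => ((κ x : ℝ) : ℂ) *
      (DP M α (μ * x) * DP N β (μ * x) * Complex.exp (Complex.I * ((μ * x * y : ℝ) : ℂ)))) μ
  have e : (fun t : ℝ => ((κ (t / μ) : ℝ) : ℂ) *
      (DP M α t * DP N β t * Complex.exp (Complex.I * ((t * y : ℝ) : ℂ)))) =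
      fun t : ℝ => ((κ (t / μ) : ℝ) : ℂ) * (DP M α (μ * (t / μ)) * DP N β (μ * (t / μ)) *
        Complex.exp (Complex.I * ((μ * (t / μ) * y : ℝ) : ℂ))) := by
    funext t
    have : μ * (t / μ) = t := by field_simp
    rw [this]
  rw [e, h1, abs_of_pos hμ, Complex.real_smul]
  congr 1
  have h2 : ∀ x : ℝ, ((κ x : ℝ) : ℂ) *
      (DP M α (μ * x) * DP N β (μ * x) * Complex.exp (Complex.I * ((μ * x * y : ℝ) : ℂ))) =
      ∑ m ∈ Icc 1 M, ∑ n ∈ Icc 1 N, α m * β n * (((κ x : ℝ) : ℂ) *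
        Complex.exp (Complex.I * ((x * (μ * (y - Real.log m - Real.log n)) : ℝ) : ℂ))) := by
    intro x
    unfold DP
    rw [Finset.sum_mul_sum, Finset.sum_mul, Finset.mul_sum]
    refine Finset.sum_congr rfl fun m _ => ?_
    rw [Finset.sum_mul, Finset.mul_sum]
    refine Finset.sum_congr rfl fun n _ => ?_
    have h3 : pz (μ * x) m * pz (μ * x) n * Complex.exp (Complex.I * ((μ * x * y : ℝ) : ℂ)) =
        Complex.exp (Complex.I * ((x * (μ * (y - Real.log m - Real.log n)) : ℝ) : ℂ)) := by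
      unfold pz
      rw [← Complex.exp_add, ← Complex.exp_add]
      congr 1
      push_cast
      ring
    rw [← h3]
    ring
  simp only [h2]
  have hi : ∀ u : ℝ, Integrable (fun x : ℝ => ((κ x : ℝ) : ℂ) *
      Complex.exp (Complex.I * ((x * u : ℝ) : ℂ))) := by
    intro u
    refine (cd_fou_int h).ofReal.mul_bdd (c := 1) ?_ ?_
    · apply Continuous.aestronglyMeasurable
      fun_prop
    · refine Filter.Eventually.of_forall fun t => ?_
      rw [mul_comm, Complex.norm_exp_ofReal_mul_I]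
  rw [integral_finsetSum _ (fun m _ => integrable_finsetSum _ fun n _ => (hi _).const_mul _)]
  refine Finset.sum_congr rfl fun m _ => ?_
  rw [integral_finsetSum _ (fun n _ => (hi _).const_mul _)]
  refine Finset.sum_congr rfl fun n _ => ?_
  rw [integral_const_mul, ← h.four]

theorem cd_fou_BW (hsp : S_sp) {κ : ℝ → ℝ} {C : ℝ} (h : Kap κ C) {J : ℕ} (hJ : 1 ≤ J) (j M N : ℕ)
    (α β : ℕ → ℂ) : ∫ t : ℝ, ((κ (t / (2 * (J : ℝ))) : ℝ) : ℂ) *
      (DP M α t * DP N β t * Complex.exp (Complex.I * ((t * yj j : ℝ) : ℂ))) =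
      2 * (J : ℂ) * BW J j M N α β := by
  have hJ0 : (0 : ℝ) < J := by exact_mod_cast hJ
  rw [cd_fou_rep h (by positivity : (0 : ℝ) < 2 * (J : ℝ))]
  push_cast
  congr 1
  unfold BW
  refine Finset.sum_congr rfl fun m hm => Finset.sum_congr rfl fun n hn => ?_
  rw [mem_Icc] at hm hn
  have hmn : 1 ≤ m * n := Nat.mul_pos hm.1 hn.1
  rw [(hsp J hJ).2.2.2.1 j (m * n) hmn, Nat.cast_mul, Real.log_mul (by
    have := hm.1; positivity) (by have := hn.1; positivity), sub_sub]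

theorem cd_fou_BL (hsp : S_sp) {κ : ℝ → ℝ} {C : ℝ} (h : Kap κ C) {lam : ℝ} (hl : 0 < lam)
    (j M N : ℕ) (α β : ℕ → ℂ) : ∫ t : ℝ, ((κ (t / lam) : ℝ) : ℂ) *
      (DP M α t * DP N β t * Complex.exp (Complex.I * ((t * yj j : ℝ) : ℂ))) =
      (lam : ℂ) * BL lam j M N α β := by
  rw [cd_fou_rep h hl]
  congr 1
  unfold BL
  refine Finset.sum_congr rfl fun m hm => Finset.sum_congr rfl fun n hn => ?_
  rw [mem_Icc] at hm hn
  have hmn : 1 ≤ m * n := Nat.mul_pos hm.1 hn.1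
  rw [(hsp 1 le_rfl).2.2.2.2 lam j (m * n) hmn, Nat.cast_mul, Real.log_mul (by
    have := hm.1; positivity) (by have := hn.1; positivity), sub_sub]

theorem cd_fou_pi {a : ℝ} (ha : 0 < a) : ∫ t : ℝ, 1 / (1 + (t / a) ^ 2) = Real.pi * a := by
  have h := Measure.integral_comp_div (fun t : ℝ => (1 + t ^ 2)⁻¹) a
  rw [integral_univ_inv_one_add_sq, abs_of_pos ha, smul_eq_mul] at h
  simp only [one_div]
  rw [h, mul_comm]

/-- the mean square bound -/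
theorem cd_fou_main (hmv : S_mv) : ∃ C : ℝ, 0 ≤ C ∧ ∀ J M N : ℕ, 2 ≤ J → ∀ (α β : ℕ → ℂ) (S : ℝ),
    0 ≤ S → ∀ E : Set ℝ, (∀ t ∈ E, |t| ≤ (J : ℝ) ^ 3 → ‖DP M α t‖ ≤ S) →
    ∀ (G : ℝ → ℂ) (c : ℝ), 0 ≤ c → AEStronglyMeasurable G volume →
    (∀ t ∈ E, ‖G t‖ ≤ c * (‖DP M α t‖ * ‖DP N β t‖) / (1 + (t / J) ^ 2)) →
    (∀ t, t ∉ E → G t = 0) →
    Integrable G ∧ Integrable (fun t => ‖G t‖ ^ 2 * (1 + (t / J) ^ 2)) ∧
    ∫ t, ‖G t‖ ^ 2 * (1 + (t / J) ^ 2) ≤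
      C * c ^ 2 * (S ^ 2 * ((J : ℝ) + N) * n2 N β + (n1 M α * n1 N β) ^ 2 / J) := by
  obtain ⟨Cm, hCm0, hCm⟩ := hmv
  refine ⟨Cm + 2 * Real.pi, by positivity, ?_⟩
  intro J M N hJ α β S hS E hE G c hc hGm hG hG0
  have hJ0 : (0 : ℝ) < J := by exact_mod_cast (by omega : 0 < J)
  obtain ⟨hB1, hB2⟩ := hCm J N hJ β
  set A := DP M α with hA
  set B := DP N β with hB
  have hw : ∀ t : ℝ, 0 < 1 + (t / (J : ℝ)) ^ 2 := fun t => by positivity
  have hn1 : 0 ≤ n1 M α := (norm_nonneg _).trans (cd_mv_DP_le M α 0)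
  have hn2 : 0 ≤ n1 N β := (norm_nonneg _).trans (cd_mv_DP_le N β 0)
  have hAB : ∀ t, ‖A t‖ * ‖B t‖ ≤ n1 M α * n1 N β := fun t =>
    mul_le_mul (cd_mv_DP_le M α t) (cd_mv_DP_le N β t) (norm_nonneg _) hn1
  have hG' : ∀ t, ‖G t‖ ≤ c * (‖A t‖ * ‖B t‖) / (1 + (t / J) ^ 2) := by
    intro t
    by_cases ht : t ∈ E
    · exact hG t ht
    · rw [hG0 t ht, norm_zero]
      have := hw t
      positivity
  have hG2 : ∀ t, ‖G t‖ ^ 2 * (1 + (t / J) ^ 2) ≤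
      c ^ 2 * ((‖A t‖ * ‖B t‖) ^ 2 / (1 + (t / J) ^ 2)) := by
    intro t
    have h1 : ‖G t‖ ^ 2 ≤ (c * (‖A t‖ * ‖B t‖) / (1 + (t / J) ^ 2)) ^ 2 :=
      pow_le_pow_left₀ (norm_nonneg _) (hG' t) 2
    have h2 := mul_le_mul_of_nonneg_right h1 (hw t).le
    refine h2.trans (le_of_eq ?_)
    have := (hw t).ne'
    field_simp
  have hI1 : Integrable G := by
    refine Integrable.mono' ((cd_mv_int hJ0).const_mul (c * (n1 M α * n1 N β))) hGm ?_
    refine Filter.Eventually.of_forall fun t => (hG' t).trans ?_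
    rw [mul_one_div]
    exact div_le_div_of_nonneg_right (mul_le_mul_of_nonneg_left (hAB t) hc) (hw t).le
  have hI2 : Integrable (fun t => ‖G t‖ ^ 2 * (1 + (t / J) ^ 2)) := by
    refine Integrable.mono' ((cd_mv_int hJ0).const_mul (c ^ 2 * (n1 M α * n1 N β) ^ 2)) ?_ ?_
    · exact (hGm.norm.pow 2).mul (by
        apply Continuous.aestronglyMeasurable
        fun_prop)
    · refine Filter.Eventually.of_forall fun t => ?_
      rw [Real.norm_of_nonneg (mul_nonneg (by positivity) (hw t).le)]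
      refine (hG2 t).trans ?_
      rw [mul_one_div, mul_div_assoc]
      refine mul_le_mul_of_nonneg_left ?_ (by positivity)
      refine div_le_div_of_nonneg_right ?_ (hw t).le
      exact pow_le_pow_left₀ (by positivity) (hAB t) 2
  refine ⟨hI1, hI2, ?_⟩
  have hJ3 : (0 : ℝ) < (J : ℝ) ^ 3 := by positivity
  have hF : ∀ t, ‖G t‖ ^ 2 * (1 + (t / J) ^ 2) ≤
      c ^ 2 * S ^ 2 * (‖B t‖ ^ 2 / (1 + (t / J) ^ 2)) +
        c ^ 2 * (n1 M α * n1 N β) ^ 2 * (2 / (J : ℝ) ^ 4) * (1 / (1 + (t / (J : ℝ) ^ 3) ^ 2)) := by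
    intro t
    have hnn1 : 0 ≤ c ^ 2 * S ^ 2 * (‖B t‖ ^ 2 / (1 + (t / J) ^ 2)) := by
      have := hw t
      positivity
    have hnn2 : 0 ≤ c ^ 2 * (n1 M α * n1 N β) ^ 2 * (2 / (J : ℝ) ^ 4) *
        (1 / (1 + (t / (J : ℝ) ^ 3) ^ 2)) := by positivity
    by_cases ht : t ∈ E
    · by_cases ht3 : |t| ≤ (J : ℝ) ^ 3
      · have h1 := hE t ht ht3
        have h2 : (‖A t‖ * ‖B t‖) ^ 2 ≤ S ^ 2 * ‖B t‖ ^ 2 := by
          rw [mul_pow]
          exact mul_le_mul_of_nonneg_right (pow_le_pow_left₀ (norm_nonneg _) h1 2) (by positivity)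
        have h3 := (hG2 t).trans (mul_le_mul_of_nonneg_left
          (div_le_div_of_nonneg_right h2 (hw t).le) (by positivity : 0 ≤ c ^ 2))
        have h4 : c ^ 2 * (S ^ 2 * ‖B t‖ ^ 2 / (1 + (t / J) ^ 2)) =
          c ^ 2 * S ^ 2 * (‖B t‖ ^ 2 / (1 + (t / J) ^ 2)) := by ring
        rw [h4] at h3
        linarith
      · rw [not_le] at ht3
        have h1 : 1 / (1 + (t / J) ^ 2) ≤ (2 / (J : ℝ) ^ 4) * (1 / (1 + (t / (J : ℝ) ^ 3) ^ 2)) := by
          have h2 : 1 ≤ (t / (J : ℝ) ^ 3) ^ 2 := by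
            rw [← sq_abs, abs_div, abs_of_pos hJ3]
            exact one_le_pow₀ (by rw [one_le_div hJ3]; exact ht3.le)
          have h3 : (t / (J : ℝ)) ^ 2 = (J : ℝ) ^ 4 * (t / (J : ℝ) ^ 3) ^ 2 := by
            field_simp
          rw [h3, div_mul_div_comm, mul_one, div_le_div_iff₀ (by positivity) (by positivity),
            one_mul]
          have h4 : (0 : ℝ) < (J : ℝ) ^ 4 := by positivity
          nlinarith
        have h2 := hG2 t
        have h3 : c ^ 2 * ((‖A t‖ * ‖B t‖) ^ 2 / (1 + (t / J) ^ 2)) ≤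
            c ^ 2 * ((n1 M α * n1 N β) ^ 2 * (1 / (1 + (t / J) ^ 2))) := by
          rw [mul_one_div]
          refine mul_le_mul_of_nonneg_left ?_ (by positivity)
          refine div_le_div_of_nonneg_right ?_ (hw t).le
          exact pow_le_pow_left₀ (by positivity) (hAB t) 2
        have h4 : c ^ 2 * ((n1 M α * n1 N β) ^ 2 * (1 / (1 + (t / J) ^ 2))) ≤
            c ^ 2 * ((n1 M α * n1 N β) ^ 2 * ((2 / (J : ℝ) ^ 4) *
              (1 / (1 + (t / (J : ℝ) ^ 3) ^ 2)))) := by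
          gcongr
        have h5 : c ^ 2 * ((n1 M α * n1 N β) ^ 2 * ((2 / (J : ℝ) ^ 4) *
              (1 / (1 + (t / (J : ℝ) ^ 3) ^ 2)))) = c ^ 2 * (n1 M α * n1 N β) ^ 2 *
              (2 / (J : ℝ) ^ 4) * (1 / (1 + (t / (J : ℝ) ^ 3) ^ 2)) := by ring
        linarith
    · rw [hG0 t ht, norm_zero]
      have : (0 : ℝ) ^ 2 * (1 + (t / J) ^ 2) = 0 := by ring
      rw [this]
      linarith
  have hint1 : Integrable (fun t : ℝ => c ^ 2 * S ^ 2 * (‖B t‖ ^ 2 / (1 + (t / J) ^ 2))) :=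
    hB1.const_mul _
  have hint2 : Integrable (fun t : ℝ => c ^ 2 * (n1 M α * n1 N β) ^ 2 * (2 / (J : ℝ) ^ 4) *
      (1 / (1 + (t / (J : ℝ) ^ 3) ^ 2))) := (cd_mv_int hJ3).const_mul _
  have h1 : ∫ t : ℝ, ‖G t‖ ^ 2 * (1 + (t / J) ^ 2) ≤ ∫ t : ℝ,
      (c ^ 2 * S ^ 2 * (‖B t‖ ^ 2 / (1 + (t / J) ^ 2)) +
        c ^ 2 * (n1 M α * n1 N β) ^ 2 * (2 / (J : ℝ) ^ 4) * (1 / (1 + (t / (J : ℝ) ^ 3) ^ 2))) :=
    integral_mono hI2 (hint1.add hint2) hF
  rw [integral_add hint1 hint2, integral_const_mul, integral_const_mul, cd_fou_pi hJ3] at h1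
  refine h1.trans ?_
  have hn2' : 0 ≤ n2 N β := by
    unfold n2
    exact Finset.sum_nonneg fun m _ => by positivity
  have h3 : c ^ 2 * S ^ 2 * (∫ t : ℝ, ‖B t‖ ^ 2 / (1 + (t / J) ^ 2)) ≤
      c ^ 2 * S ^ 2 * (Cm * ((J : ℝ) + N) * n2 N β) :=
    mul_le_mul_of_nonneg_left hB2 (by positivity)
  have h4 : c ^ 2 * (n1 M α * n1 N β) ^ 2 * (2 / (J : ℝ) ^ 4) * (Real.pi * (J : ℝ) ^ 3) =
      2 * Real.pi * c ^ 2 * ((n1 M α * n1 N β) ^ 2 / J) := by
    field_simp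
  rw [h4]
  have h5 : 0 ≤ 2 * Real.pi * c ^ 2 * (S ^ 2 * ((J : ℝ) + N) * n2 N β) := by positivity
  have h6 : 0 ≤ Cm * c ^ 2 * ((n1 M α * n1 N β) ^ 2 / J) := by positivity
  nlinarith

end Pool.Agent.CH.D
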