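import Pool.Agent.Lib.MP_d610d0_nt.CH.D.Stm

set_option autoImplicit false

/-!
Section D: the large sieve for Fourier integrals at the centres of the windows.
-/

namespace Pool.Agent.CH.D

open Finset MeasureTheory ArithmeticFunction
open Pool.Agent.MP89da58 (tri primChars)
open Pool.Agent.CH.V (pz)

private theorem cd_lsi_geo (s : Finset ℕ) (j : ℕ) :
    ∑ k ∈ s, Real.exp (-|(j : ℝ) - k|) ≤ 3 := by
  have h1 : ∀ n : ℕ, Real.exp (-(n : ℝ)) ≤ (1 / 2 : ℝ) ^ n := by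
    intro n
    have : Real.exp (-1) ≤ 1 / 2 := by
      rw [Real.exp_neg, one_div]
      apply inv_anti₀ (by norm_num)
      have := Real.add_one_le_exp (1 : ℝ)
      linarith
    calc Real.exp (-(n : ℝ)) = Real.exp (-1) ^ n := by rw [← Real.exp_nat_mul]; ring_nf
      _ ≤ _ := pow_le_pow_left₀ (Real.exp_pos _).le this n
  have hs : s ⊆ range j ∪ Ico j (s.sup id + j + 1) := by
    intro k hk
    have hk' : k ≤ s.sup id := le_sup (f := id) hk
    rw [mem_union, mem_range, mem_Ico]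
    omega
  have hd : Disjoint (range j) (Ico j (s.sup id + j + 1)) := by
    rw [disjoint_left]
    intro k h1 h2
    rw [mem_range] at h1
    rw [mem_Ico] at h2
    omega
  have e1 : ∑ k ∈ range j, Real.exp (-|(j : ℝ) - k|) ≤ 1 := by
    calc ∑ k ∈ range j, Real.exp (-|(j : ℝ) - k|)
        ≤ ∑ k ∈ range j, (1 / 2 : ℝ) * (1 / 2 : ℝ) ^ (j - 1 - k) := by
          apply sum_le_sum
          intro k hk
          rw [mem_range] at hk
          have : |(j : ℝ) - k| = ((j - k : ℕ) : ℝ) := by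
            rw [Nat.cast_sub hk.le, abs_of_nonneg]
            have : (k : ℝ) < j := by exact_mod_cast hk
            linarith
          rw [this]
          refine (h1 _).trans (le_of_eq ?_)
          rw [← pow_succ']
          congr 1
          omega
      _ = (1 / 2 : ℝ) * ∑ k ∈ range j, (1 / 2 : ℝ) ^ k := by
          rw [← mul_sum, sum_range_reflect (fun i => (1 / 2 : ℝ) ^ i) j]
      _ ≤ 1 := by
          have := sum_geometric_two_le j
          linarith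
  have e2 : ∑ k ∈ Ico j (s.sup id + j + 1), Real.exp (-|(j : ℝ) - k|) ≤ 2 := by
    rw [sum_Ico_eq_sum_range]
    refine le_trans (sum_le_sum fun i _ => ?_) (sum_geometric_two_le _)
    have : |(j : ℝ) - ((j + i : ℕ) : ℝ)| = (i : ℝ) := by
      push_cast
      rw [show (j : ℝ) - (j + i) = -(i : ℝ) by ring, abs_neg, Nat.abs_cast]
    rw [this]
    exact h1 i
  calc ∑ k ∈ s, Real.exp (-|(j : ℝ) - k|)
      ≤ ∑ k ∈ range j ∪ Ico j (s.sup id + j + 1), Real.exp (-|(j : ℝ) - k|) :=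
        sum_le_sum_of_subset_of_nonneg hs fun _ _ _ => (Real.exp_pos _).le
    _ = _ := sum_union hd
    _ ≤ 3 := by linarith

private theorem cd_lsi_ker (hcau : S_cau) (J : ℕ) (hJ : 1 ≤ J) (u : ℝ) :
    Integrable (fun t : ℝ => 1 / (1 + (t / J) ^ 2)) ∧
    ∫ t : ℝ, Complex.exp (Complex.I * ((t * u : ℝ) : ℂ)) * (((1 / (1 + (t / J) ^ 2) : ℝ)) : ℂ)
    = ((Real.pi * J * Real.exp (-(J * |u|)) : ℝ) : ℂ) := by
  have hJ0 : (0 : ℝ) < J := by exact_mod_cast hJ
  obtain ⟨h1, h2⟩ := hcau (J * u)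
  refine ⟨h1.comp_div hJ0.ne', ?_⟩
  have h3 := Measure.integral_comp_mul_left (fun t : ℝ =>
    Complex.exp (Complex.I * ((t * u : ℝ) : ℂ)) * (((1 / (1 + (t / J) ^ 2) : ℝ)) : ℂ)) (J : ℝ)
  have h4 : (fun x : ℝ => Complex.exp (Complex.I * (((J : ℝ) * x * u : ℝ) : ℂ)) *
      (((1 / (1 + ((J : ℝ) * x / J) ^ 2) : ℝ)) : ℂ)) = fun t : ℝ =>
      Complex.exp (Complex.I * ((t * (J * u) : ℝ) : ℂ)) * (((1 / (1 + t ^ 2) : ℝ)) : ℂ) := by
    funext x
    rw [mul_div_cancel_left₀ _ hJ0.ne', show (J : ℝ) * x * u = x * (J * u) by ring]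
  rw [h4, h2, abs_of_pos (inv_pos.2 hJ0), abs_mul, abs_of_pos hJ0] at h3
  have h5 : ∀ z : ℂ, (J : ℝ) • ((J : ℝ)⁻¹ • z) = z := fun z => by
    rw [smul_smul, mul_inv_cancel₀ hJ0.ne', one_smul]
  rw [← h5 (∫ t : ℝ, Complex.exp (Complex.I * ((t * u : ℝ) : ℂ)) *
    (((1 / (1 + (t / J) ^ 2) : ℝ)) : ℂ)), ← h3, Complex.real_smul, ← Complex.ofReal_mul]
  congr 1
  ring

private theorem cd_lsi_cont (u : ℝ) :
    Continuous fun t : ℝ => Complex.exp (Complex.I * ((t * u : ℝ) : ℂ)) := by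
  fun_prop

private theorem cd_lsi_norm (u t : ℝ) : ‖Complex.exp (Complex.I * ((t * u : ℝ) : ℂ))‖ = 1 := by
  rw [mul_comm, Complex.norm_exp_ofReal_mul_I]

/-- the mean value of the exponential polynomial -/
private theorem cd_lsi_H (hcau : S_cau) (hsp : S_sp) (J : ℕ) (hJ : 1 ≤ J) (c : ℕ → ℂ) :
    Integrable (fun t : ℝ => ‖∑ j ∈ Ioc J (2 * J), c j *
      Complex.exp (Complex.I * ((t * yj j : ℝ) : ℂ))‖ ^ 2 * (1 / (1 + (t / J) ^ 2))) ∧
    ∫ t : ℝ, ‖∑ j ∈ Ioc J (2 * J), c j *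
      Complex.exp (Complex.I * ((t * yj j : ℝ) : ℂ))‖ ^ 2 * (1 / (1 + (t / J) ^ 2))
      ≤ 3 * Real.pi * J * ∑ j ∈ Ioc J (2 * J), ‖c j‖ ^ 2 := by
  have hJ0 : (0 : ℝ) < J := by exact_mod_cast hJ
  have hw : Integrable (fun t : ℝ => 1 / (1 + (t / J) ^ 2)) := (cd_lsi_ker hcau J hJ 0).1
  have hwn : ∀ t : ℝ, 0 ≤ 1 / (1 + (t / J) ^ 2) := fun t => by positivity
  set H : ℝ → ℂ := fun t => ∑ j ∈ Ioc J (2 * J), c j *
      Complex.exp (Complex.I * ((t * yj j : ℝ) : ℂ)) with hH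
  have hHc : Continuous H := by
    apply continuous_finsetSum
    intro j _
    exact continuous_const.mul (cd_lsi_cont _)
  have hHb : ∀ t, ‖H t‖ ≤ ∑ j ∈ Ioc J (2 * J), ‖c j‖ := by
    intro t
    refine (norm_sum_le _ _).trans (sum_le_sum fun j _ => ?_)
    rw [norm_mul, cd_lsi_norm, mul_one]
  have hint : Integrable (fun t : ℝ => ‖H t‖ ^ 2 * (1 / (1 + (t / J) ^ 2))) := by
    refine Integrable.bdd_mul (c := (∑ j ∈ Ioc J (2 * J), ‖c j‖) ^ 2) hw
      (hHc.norm.pow 2).aestronglyMeasurable (Filter.Eventually.of_forall fun t => ?_)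
    rw [Real.norm_of_nonneg (by positivity)]
    exact pow_le_pow_left₀ (norm_nonneg _) (hHb t) 2
  refine ⟨hint, ?_⟩
  -- the double sum
  have hterm : ∀ u : ℝ, Integrable (fun t : ℝ =>
      Complex.exp (Complex.I * ((t * u : ℝ) : ℂ)) * (((1 / (1 + (t / J) ^ 2) : ℝ)) : ℂ)) := by
    intro u
    refine Integrable.bdd_mul (c := 1) hw.ofReal (cd_lsi_cont u).aestronglyMeasurable
      (Filter.Eventually.of_forall fun t => (cd_lsi_norm u t).le)
  have hpt : ∀ t : ℝ, ((‖H t‖ ^ 2 * (1 / (1 + (t / J) ^ 2)) : ℝ) : ℂ) =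
      ∑ j ∈ Ioc J (2 * J), ∑ k ∈ Ioc J (2 * J), (c j * (starRingEnd ℂ) (c k)) *
        (Complex.exp (Complex.I * ((t * (yj j - yj k) : ℝ) : ℂ)) *
          (((1 / (1 + (t / J) ^ 2) : ℝ)) : ℂ)) := by
    intro t
    rw [Complex.ofReal_mul, Complex.ofReal_pow, ← Complex.mul_conj', hH]
    simp only
    rw [map_sum, sum_mul_sum, sum_mul]
    refine sum_congr rfl fun j _ => ?_
    rw [sum_mul]
    refine sum_congr rfl fun k _ => ?_
    rw [map_mul, ← Complex.exp_conj, map_mul, Complex.conj_I, Complex.conj_ofReal]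
    have : Complex.exp (Complex.I * ((t * (yj j - yj k) : ℝ) : ℂ)) =
        Complex.exp (Complex.I * ((t * yj j : ℝ) : ℂ)) *
          Complex.exp (-Complex.I * ((t * yj k : ℝ) : ℂ)) := by
      rw [← Complex.exp_add]
      congr 1
      push_cast
      ring
    rw [this]
    ring
  have hI : ((∫ t : ℝ, ‖H t‖ ^ 2 * (1 / (1 + (t / J) ^ 2)) : ℝ) : ℂ) =
      ∑ j ∈ Ioc J (2 * J), ∑ k ∈ Ioc J (2 * J), (c j * (starRingEnd ℂ) (c k)) *
        ((Real.pi * J * Real.exp (-(J * |yj j - yj k|)) : ℝ) : ℂ) := by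
    rw [← integral_complex_ofReal]
    simp only [hpt]
    rw [integral_finsetSum]
    · refine sum_congr rfl fun j _ => ?_
      rw [integral_finsetSum]
      · refine sum_congr rfl fun k _ => ?_
        rw [integral_const_mul, (cd_lsi_ker hcau J hJ _).2]
      · intro k _
        exact (hterm _).const_mul _
    · intro j _
      exact integrable_finsetSum _ fun k _ => (hterm _).const_mul _
  have hb : ∫ t : ℝ, ‖H t‖ ^ 2 * (1 / (1 + (t / J) ^ 2)) ≤
      ∑ j ∈ Ioc J (2 * J), ∑ k ∈ Ioc J (2 * J), (‖c j‖ ^ 2 + ‖c k‖ ^ 2) / 2 *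
        (Real.pi * J * Real.exp (-|(j : ℝ) - k|)) := by
    calc ∫ t : ℝ, ‖H t‖ ^ 2 * (1 / (1 + (t / J) ^ 2))
        ≤ ‖((∫ t : ℝ, ‖H t‖ ^ 2 * (1 / (1 + (t / J) ^ 2)) : ℝ) : ℂ)‖ := by
          rw [Complex.norm_real]; exact le_abs_self _
      _ ≤ _ := by
          rw [hI]
          refine (norm_sum_le _ _).trans (sum_le_sum fun j hj => ?_)
          refine (norm_sum_le _ _).trans (sum_le_sum fun k hk => ?_)
          rw [norm_mul, norm_mul, RCLike.norm_conj, Complex.norm_real,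
            Real.norm_of_nonneg (by positivity)]
          apply mul_le_mul
          · nlinarith [sq_nonneg (‖c j‖ - ‖c k‖)]
          · apply mul_le_mul_of_nonneg_left _ (by positivity)
            apply Real.exp_le_exp.2
            have := (hsp J hJ).1 j hj k hk
            linarith
          · positivity
          · positivity
  refine hb.trans ?_
  have hsym : ∑ j ∈ Ioc J (2 * J), ∑ k ∈ Ioc J (2 * J), (‖c j‖ ^ 2 + ‖c k‖ ^ 2) / 2 *
        (Real.pi * J * Real.exp (-|(j : ℝ) - k|)) =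
      Real.pi * J * ∑ j ∈ Ioc J (2 * J), ‖c j‖ ^ 2 *
        ∑ k ∈ Ioc J (2 * J), Real.exp (-|(j : ℝ) - k|) := by
    have h1 : ∑ j ∈ Ioc J (2 * J), ∑ k ∈ Ioc J (2 * J), (‖c j‖ ^ 2 + ‖c k‖ ^ 2) / 2 *
        (Real.pi * J * Real.exp (-|(j : ℝ) - k|)) =
        (Real.pi * J / 2) * (∑ j ∈ Ioc J (2 * J), ∑ k ∈ Ioc J (2 * J),
          ‖c j‖ ^ 2 * Real.exp (-|(j : ℝ) - k|)) +
        (Real.pi * J / 2) * (∑ j ∈ Ioc J (2 * J), ∑ k ∈ Ioc J (2 * J),
          ‖c k‖ ^ 2 * Real.exp (-|(j : ℝ) - k|)) := by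
      rw [mul_sum, mul_sum, ← sum_add_distrib]
      refine sum_congr rfl fun j _ => ?_
      rw [mul_sum, mul_sum, ← sum_add_distrib]
      refine sum_congr rfl fun k _ => ?_
      ring
    have h2 : ∑ j ∈ Ioc J (2 * J), ∑ k ∈ Ioc J (2 * J),
          ‖c k‖ ^ 2 * Real.exp (-|(j : ℝ) - k|) = ∑ j ∈ Ioc J (2 * J), ∑ k ∈ Ioc J (2 * J),
          ‖c j‖ ^ 2 * Real.exp (-|(j : ℝ) - k|) := by
      rw [sum_comm]
      refine sum_congr rfl fun j _ => sum_congr rfl fun k _ => ?_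
      rw [abs_sub_comm]
    rw [h1, h2]
    simp only [mul_sum]
    rw [← sum_add_distrib]
    refine sum_congr rfl fun j _ => ?_
    rw [← sum_add_distrib]
    refine sum_congr rfl fun k _ => ?_
    ring
  rw [hsym]
  calc Real.pi * J * ∑ j ∈ Ioc J (2 * J), ‖c j‖ ^ 2 *
        ∑ k ∈ Ioc J (2 * J), Real.exp (-|(j : ℝ) - k|)
      ≤ Real.pi * J * ∑ j ∈ Ioc J (2 * J), ‖c j‖ ^ 2 * 3 := by
        apply mul_le_mul_of_nonneg_left _ (by positivity)
        refine sum_le_sum fun j _ => ?_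
        exact mul_le_mul_of_nonneg_left (cd_lsi_geo _ _) (by positivity)
    _ = 3 * Real.pi * J * ∑ j ∈ Ioc J (2 * J), ‖c j‖ ^ 2 := by
        rw [← sum_mul]; ring

theorem p_lsi (hcau : S_cau) (hsp : S_sp) : S_lsi := by
  refine ⟨3 * Real.pi, by positivity, ?_⟩
  intro J hJ G hG hGw
  have hJ0 : (0 : ℝ) < J := by exact_mod_cast hJ
  set I : ℕ → ℂ := fun j => ∫ t : ℝ, G t * Complex.exp (Complex.I * ((t * yj j : ℝ) : ℂ)) with hI
  set c : ℕ → ℂ := fun j => (starRingEnd ℂ) (I j) with hc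
  obtain ⟨hH1, hH2⟩ := cd_lsi_H hcau hsp J hJ c
  set H : ℝ → ℂ := fun t => ∑ j ∈ Ioc J (2 * J), c j *
      Complex.exp (Complex.I * ((t * yj j : ℝ) : ℂ)) with hH
  set Y : ℝ := ∑ j ∈ Ioc J (2 * J), ‖I j‖ ^ 2 with hY
  have hY0 : 0 ≤ Y := sum_nonneg fun _ _ => by positivity
  have hcY : ∑ j ∈ Ioc J (2 * J), ‖c j‖ ^ 2 = Y := by
    refine sum_congr rfl fun j _ => ?_
    rw [hc]; simp only [RCLike.norm_conj]
  have hgi : ∀ j, Integrable (fun t : ℝ => G t *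
      Complex.exp (Complex.I * ((t * yj j : ℝ) : ℂ))) := by
    intro j
    have : Integrable (fun t : ℝ => Complex.exp (Complex.I * ((t * yj j : ℝ) : ℂ)) * G t) :=
      Integrable.bdd_mul (c := 1) hG (cd_lsi_cont _).aestronglyMeasurable
        (Filter.Eventually.of_forall fun t => (cd_lsi_norm _ t).le)
    refine this.congr (Filter.Eventually.of_forall fun t => ?_)
    exact mul_comm _ _
  have hYc : (Y : ℂ) = ∫ t : ℝ, G t * H t := by
    have : ∀ t, G t * H t = ∑ j ∈ Ioc J (2 * J), c j * (G t *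
        Complex.exp (Complex.I * ((t * yj j : ℝ) : ℂ))) := by
      intro t
      rw [hH]
      simp only
      rw [mul_sum]
      refine sum_congr rfl fun j _ => ?_
      ring
    simp only [this]
    rw [integral_finsetSum _ fun j _ => (hgi j).const_mul _]
    rw [hY, Complex.ofReal_sum]
    refine sum_congr rfl fun j _ => ?_
    rw [integral_const_mul, Complex.ofReal_pow, ← Complex.conj_mul']
  have hGH : Integrable (fun t : ℝ => G t * H t) := by
    have : (fun t : ℝ => G t * H t) = fun t => ∑ j ∈ Ioc J (2 * J), c j * (G t *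
        Complex.exp (Complex.I * ((t * yj j : ℝ) : ℂ))) := by
      funext t
      rw [hH]
      simp only
      rw [mul_sum]
      refine sum_congr rfl fun j _ => ?_
      ring
    rw [this]
    exact integrable_finsetSum _ fun j _ => (hgi j).const_mul _
  have h1 : Y ≤ ∫ t : ℝ, ‖G t * H t‖ := by
    calc Y = ‖(Y : ℂ)‖ := by rw [Complex.norm_real, Real.norm_of_nonneg hY0]
      _ ≤ _ := by rw [hYc]; exact norm_integral_le_integral_norm _
  have hpi := Real.pi_pos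
  set a : ℝ := 3 * Real.pi * J / 2 with ha
  have ha0 : 0 < a := by positivity
  have h2 : ∫ t : ℝ, ‖G t * H t‖ ≤ ∫ t : ℝ, (a * (‖G t‖ ^ 2 * (1 + (t / J) ^ 2)) +
      (1 / (4 * a)) * (‖H t‖ ^ 2 * (1 / (1 + (t / J) ^ 2)))) := by
    refine integral_mono hGH.norm ((hGw.const_mul a).add (hH1.const_mul _)) fun t => ?_
    show ‖G t * H t‖ ≤ a * (‖G t‖ ^ 2 * (1 + (t / J) ^ 2)) +
      (1 / (4 * a)) * (‖H t‖ ^ 2 * (1 / (1 + (t / J) ^ 2)))
    have hw : 0 < 1 + (t / J) ^ 2 := by positivity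
    rw [norm_mul]
    have e : a * (‖G t‖ ^ 2 * (1 + (t / J) ^ 2)) +
      (1 / (4 * a)) * (‖H t‖ ^ 2 * (1 / (1 + (t / J) ^ 2))) - ‖G t‖ * ‖H t‖ =
        (2 * a * (1 + (t / J) ^ 2) * ‖G t‖ - ‖H t‖) ^ 2 / (4 * a * (1 + (t / J) ^ 2)) := by
      field_simp
      ring
    have : 0 ≤ (2 * a * (1 + (t / J) ^ 2) * ‖G t‖ - ‖H t‖) ^ 2 / (4 * a * (1 + (t / J) ^ 2)) := by
      positivity
    linarith
  rw [integral_add (hGw.const_mul a) (hH1.const_mul _), integral_const_mul,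
    integral_const_mul] at h2
  rw [hcY] at hH2
  have h3 : (1 / (4 * a)) * (∫ t : ℝ, ‖H t‖ ^ 2 * (1 / (1 + (t / J) ^ 2))) ≤ Y / 2 := by
    calc (1 / (4 * a)) * (∫ t : ℝ, ‖H t‖ ^ 2 * (1 / (1 + (t / J) ^ 2)))
        ≤ (1 / (4 * a)) * (3 * Real.pi * J * Y) :=
          mul_le_mul_of_nonneg_left hH2 (by positivity)
      _ = Y / 2 := by
          rw [ha]
          field_simp
          ring
  have h4 : Y ≤ 2 * a * ∫ t : ℝ, ‖G t‖ ^ 2 * (1 + (t / J) ^ 2) := by linarith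
  calc ∑ j ∈ Ioc J (2 * J), ‖∫ t : ℝ, G t * Complex.exp (Complex.I * ((t * yj j : ℝ) : ℂ))‖ ^ 2
      = Y := rfl
    _ ≤ 2 * a * ∫ t : ℝ, ‖G t‖ ^ 2 * (1 + (t / J) ^ 2) := h4
    _ = 3 * Real.pi * J * ∫ t : ℝ, ‖G t‖ ^ 2 * (1 + (t / J) ^ 2) := by
        rw [ha]; ring

end Pool.Agent.CH.D
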