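import Pool.Agent.Lib.MP_d610d0_nt.CH.D.Stm

/-!
# MP_d610d0_nt, section D, piece [CD mv]: mean value of Dirichlet polynomials
-/

set_option autoImplicit false

namespace Pool.Agent.CH.D

open Finset MeasureTheory ArithmeticFunction
open Pool.Agent.MP89da58 (tri primChars)
open Pool.Agent.CH.V (pz)

theorem cd_mv_pz_mul (t : ℝ) (m n : ℕ) : pz t m * (starRingEnd ℂ) (pz t n) =
    Complex.exp (Complex.I * ((t * (Real.log n - Real.log m) : ℝ) : ℂ)) := by
  unfold pz
  rw [← Complex.exp_conj, ← Complex.exp_add]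
  congr 1
  rw [map_neg, map_mul, Complex.conj_I, Complex.conj_ofReal]
  push_cast
  ring

theorem cd_mv_norm_pz (t x : ℝ) : ‖pz t x‖ = 1 := by
  unfold pz
  rw [Complex.norm_exp]
  simp

theorem cd_mv_DP_le (N : ℕ) (b : ℕ → ℂ) (t : ℝ) : ‖DP N b t‖ ≤ n1 N b := by
  unfold DP n1
  refine (norm_sum_le _ _).trans (Finset.sum_le_sum fun m _ => ?_)
  rw [norm_mul, cd_mv_norm_pz, mul_one]

theorem cd_mv_DP_cont (N : ℕ) (b : ℕ → ℂ) : Continuous (DP N b) := by
  unfold DP pz
  fun_prop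

/-- the Fourier transform of `1 / (1 + (t/J)^2)` -/
theorem cd_mv_four (hcau : S_cau) {J : ℝ} (hJ : 0 < J) (u : ℝ) :
    ∫ t : ℝ, Complex.exp (Complex.I * ((t * u : ℝ) : ℂ)) * (((1 / (1 + (t / J) ^ 2) : ℝ)) : ℂ)
      = ((Real.pi * J * Real.exp (-(J * |u|)) : ℝ) : ℂ) := by
  have h := (hcau (J * u)).2
  have h2 := Measure.integral_comp_div (fun s : ℝ => Complex.exp (Complex.I *
    ((s * (J * u) : ℝ) : ℂ)) * (((1 / (1 + s ^ 2) : ℝ)) : ℂ)) J
  rw [h, abs_of_pos hJ] at h2
  have e : (fun t : ℝ => Complex.exp (Complex.I * ((t * u : ℝ) : ℂ)) *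
      (((1 / (1 + (t / J) ^ 2) : ℝ)) : ℂ)) = fun t : ℝ => Complex.exp (Complex.I *
    ((t / J * (J * u) : ℝ) : ℂ)) * (((1 / (1 + (t / J) ^ 2) : ℝ)) : ℂ) := by
    funext t
    have : t / J * (J * u) = t * u := by field_simp
    rw [this]
  rw [e, h2, abs_mul, abs_of_pos hJ, Complex.real_smul]
  push_cast
  ring

theorem cd_mv_int {J : ℝ} (hJ : 0 < J) : Integrable (fun t : ℝ => 1 / (1 + (t / J) ^ 2)) := by
  have h := integrable_inv_one_add_sq.comp_div hJ.ne'
  simpa only [one_div] using h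

/-- logarithms of integers are separated -/
private theorem cd_mv_log {N m n : ℕ} (hm : m ∈ Icc 1 N) (hn : n ∈ Icc 1 N) :
    |(m : ℝ) - n| / N ≤ |Real.log n - Real.log m| := by
  have key : ∀ m n : ℕ, m ∈ Icc 1 N → n ∈ Icc 1 N → m ≤ n →
      ((n : ℝ) - m) / N ≤ Real.log n - Real.log m := by
    intro m n hm hn hmn
    rw [mem_Icc] at hm hn
    have hm0 : (0 : ℝ) < m := by exact_mod_cast hm.1
    have hn0 : (0 : ℝ) < n := by exact_mod_cast hn.1
    have hnN : (n : ℝ) ≤ N := by exact_mod_cast hn.2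
    have hmn' : (m : ℝ) ≤ n := by exact_mod_cast hmn
    have h1 := Real.one_sub_inv_le_log_of_pos (div_pos hn0 hm0)
    rw [Real.log_div hn0.ne' hm0.ne', inv_div] at h1
    have h2 : ((n : ℝ) - m) / N ≤ 1 - m / n := by
      have h3 : 1 - (m : ℝ) / n = (n - m) / n := by field_simp
      rw [h3]
      exact div_le_div_of_nonneg_left (by linarith) hn0 hnN
    linarith
  rcases le_total m n with h | h
  · have h1 := key m n hm hn h
    have h2 : (m : ℝ) ≤ n := by exact_mod_cast h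
    rw [abs_sub_comm, abs_of_nonneg (by linarith : (0 : ℝ) ≤ n - m)]
    exact h1.trans (le_abs_self _)
  · have h1 := key n m hn hm h
    have h2 : (n : ℝ) ≤ m := by exact_mod_cast h
    rw [abs_of_nonneg (by linarith : (0 : ℝ) ≤ m - n), abs_sub_comm (Real.log n)]
    exact h1.trans (le_abs_self _)

/-- the sum of the kernel over one row -/
private theorem cd_mv_row {J N m : ℕ} (hJ : 1 ≤ J) (hm : m ∈ Icc 1 N) :
    ∑ n ∈ Icc 1 N, Real.exp (-((J : ℝ) * |Real.log n - Real.log m|)) ≤ 2 * (1 + (N : ℝ) / J) := by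
  have hN : 0 < N := by rw [mem_Icc] at hm; omega
  have hN0 : (0 : ℝ) < N := by exact_mod_cast hN
  have hJ0 : (0 : ℝ) < J := by exact_mod_cast hJ
  set x : ℝ := J / N with hx
  have hx0 : 0 < x := div_pos hJ0 hN0
  set r : ℝ := Real.exp (-x) with hr
  have hr0 : 0 < r := Real.exp_pos _
  have hr1 : r < 1 := by rw [hr, Real.exp_lt_one_iff]; linarith
  have hsum : Summable (fun k : ℕ => r ^ k) := summable_geometric_of_lt_one hr0.le hr1
  have htsum : ∑' k : ℕ, r ^ k = (1 - r)⁻¹ := tsum_geometric_of_lt_one hr0.le hr1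
  have hbd : (1 - r)⁻¹ ≤ 1 + N / J := by
    have h1 : (x + 1) * r ≤ 1 := by
      have h2 := Real.add_one_le_exp x
      have h3 : Real.exp x * r = 1 := by rw [hr, ← Real.exp_add, add_neg_cancel, Real.exp_zero]
      nlinarith
    have h2 : (N : ℝ) / J = 1 / x := by rw [hx]; field_simp
    rw [h2, inv_le_iff_one_le_mul₀ (by linarith : (0 : ℝ) < 1 - r)]
    have h3 : (1 + 1 / x) * (1 - r) = (x + 1 - (x + 1) * r) / x := by field_simp
    rw [h3, le_div_iff₀ hx0]
    linarith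
  have hterm : ∀ n ∈ Icc 1 N, Real.exp (-((J : ℝ) * |Real.log n - Real.log m|)) ≤
      (if n ≤ m then r ^ (m - n) else 0) + (if m < n then r ^ (n - m) else 0) := by
    intro n hn
    have h1 := cd_mv_log hm hn
    have h2 : Real.exp (-((J : ℝ) * |Real.log n - Real.log m|)) ≤
        Real.exp (|(m : ℝ) - n| * (-x)) := by
      apply Real.exp_le_exp.2
      have h3 : (J : ℝ) * (|(m : ℝ) - n| / N) ≤ J * |Real.log n - Real.log m| :=
        mul_le_mul_of_nonneg_left h1 hJ0.le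
      have h4 : (J : ℝ) * (|(m : ℝ) - n| / N) = |(m : ℝ) - n| * x := by rw [hx]; ring
      rw [h4] at h3
      linarith
    refine h2.trans ?_
    rcases Nat.lt_or_ge m n with h | h
    · rw [if_neg (by omega), if_pos h, zero_add]
      have h3 : |(m : ℝ) - n| = ((n - m : ℕ) : ℝ) := by
        rw [Nat.cast_sub h.le, abs_sub_comm, abs_of_nonneg]
        have : (m : ℝ) ≤ n := by exact_mod_cast h.le
        linarith
      rw [h3, Real.exp_nat_mul]
    · rw [if_pos h, if_neg (by omega), add_zero]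
      have h3 : |(m : ℝ) - n| = ((m - n : ℕ) : ℝ) := by
        rw [Nat.cast_sub h, abs_of_nonneg]
        have : (n : ℝ) ≤ m := by exact_mod_cast h
        linarith
      rw [h3, Real.exp_nat_mul]
  refine (Finset.sum_le_sum hterm).trans ?_
  rw [Finset.sum_add_distrib, ← Finset.sum_filter, ← Finset.sum_filter, two_mul]
  apply add_le_add
  · refine le_trans ?_ hbd
    rw [← htsum]
    have h1 : ∑ n ∈ (Icc 1 N).filter (fun n => n ≤ m), r ^ (m - n) =
        ∑ k ∈ ((Icc 1 N).filter (fun n => n ≤ m)).image (fun n => m - n), r ^ k := by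
      rw [Finset.sum_image]
      intro a ha b hb hab
      simp only [Finset.coe_filter, Set.mem_ofPred_eq] at ha hb
      simp only at hab
      omega
    rw [h1]
    exact hsum.sum_le_tsum _ fun k _ => by positivity
  · refine le_trans ?_ hbd
    rw [← htsum]
    have h1 : ∑ n ∈ (Icc 1 N).filter (fun n => m < n), r ^ (n - m) =
        ∑ k ∈ ((Icc 1 N).filter (fun n => m < n)).image (fun n => n - m), r ^ k := by
      rw [Finset.sum_image]
      intro a ha b hb hab
      simp only [Finset.coe_filter, Set.mem_ofPred_eq] at ha hb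
      simp only at hab
      omega
    rw [h1]
    exact hsum.sum_le_tsum _ fun k _ => by positivity

theorem p_mv (hcau : S_cau) : S_mv := by
  refine ⟨2 * Real.pi, by positivity, ?_⟩
  intro J N hJ b
  have hJ0 : (0 : ℝ) < J := by exact_mod_cast (by omega : 0 < J)
  have hint : Integrable (fun t : ℝ => ‖DP N b t‖ ^ 2 / (1 + (t / J) ^ 2)) := by
    refine Integrable.mono' ((cd_mv_int hJ0).const_mul (n1 N b ^ 2)) ?_ ?_
    · apply Continuous.aestronglyMeasurable
      have h1 := cd_mv_DP_cont N b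
      refine Continuous.div (by fun_prop) (by fun_prop) ?_
      intro t
      positivity
    · refine Filter.Eventually.of_forall fun t => ?_
      have h1 := cd_mv_DP_le N b t
      have h2 : ‖DP N b t‖ ^ 2 ≤ n1 N b ^ 2 := pow_le_pow_left₀ (norm_nonneg _) h1 2
      rw [Real.norm_of_nonneg (by positivity), mul_one_div]
      exact div_le_div_of_nonneg_right h2 (by positivity)
  refine ⟨hint, ?_⟩
  -- the integral as a double sum
  have hval : ((∫ t : ℝ, ‖DP N b t‖ ^ 2 / (1 + (t / J) ^ 2) : ℝ) : ℂ) =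
      ∑ m ∈ Icc 1 N, ∑ n ∈ Icc 1 N, b m * (starRingEnd ℂ) (b n) *
        ((Real.pi * J * Real.exp (-((J : ℝ) * |Real.log n - Real.log m|)) : ℝ) : ℂ) := by
    rw [← integral_complex_ofReal]
    have h1 : ∀ t : ℝ, ((‖DP N b t‖ ^ 2 / (1 + (t / J) ^ 2) : ℝ) : ℂ) =
        ∑ m ∈ Icc 1 N, ∑ n ∈ Icc 1 N, b m * (starRingEnd ℂ) (b n) *
          (Complex.exp (Complex.I * ((t * (Real.log n - Real.log m) : ℝ) : ℂ)) *
            (((1 / (1 + (t / J) ^ 2) : ℝ)) : ℂ)) := by
      intro t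
      have h2 : ((‖DP N b t‖ ^ 2 : ℝ) : ℂ) = DP N b t * (starRingEnd ℂ) (DP N b t) := by
        rw [Complex.mul_conj, Complex.normSq_eq_norm_sq]
      have h3 : DP N b t * (starRingEnd ℂ) (DP N b t) = ∑ m ∈ Icc 1 N, ∑ n ∈ Icc 1 N,
          b m * (starRingEnd ℂ) (b n) *
          Complex.exp (Complex.I * ((t * (Real.log n - Real.log m) : ℝ) : ℂ)) := by
        unfold DP
        rw [map_sum, Finset.sum_mul_sum]
        refine Finset.sum_congr rfl fun m _ => Finset.sum_congr rfl fun n _ => ?_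
        rw [← cd_mv_pz_mul, map_mul]
        ring
      rw [div_eq_mul_one_div, Complex.ofReal_mul, h2, h3, Finset.sum_mul]
      refine Finset.sum_congr rfl fun m _ => ?_
      rw [Finset.sum_mul]
      refine Finset.sum_congr rfl fun n _ => ?_
      ring
    have hi : ∀ u : ℝ, Integrable (fun t : ℝ => Complex.exp (Complex.I * ((t * u : ℝ) : ℂ)) *
        (((1 / (1 + (t / J) ^ 2) : ℝ)) : ℂ)) := by
      intro u
      refine Integrable.bdd_mul (c := 1) (cd_mv_int hJ0).ofReal ?_ ?_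
      · apply Continuous.aestronglyMeasurable
        fun_prop
      · refine Filter.Eventually.of_forall fun t => ?_
        rw [mul_comm, Complex.norm_exp_ofReal_mul_I]
    simp only [h1]
    rw [integral_finsetSum _ (fun m _ => integrable_finsetSum _ fun n _ =>
      (hi _).const_mul _)]
    refine Finset.sum_congr rfl fun m _ => ?_
    rw [integral_finsetSum _ (fun n _ => (hi _).const_mul _)]
    refine Finset.sum_congr rfl fun n _ => ?_
    rw [integral_const_mul, cd_mv_four hcau hJ0]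
  set K : ℕ → ℕ → ℝ := fun m n => Real.exp (-((J : ℝ) * |Real.log n - Real.log m|)) with hK
  have hK0 : ∀ m n, 0 ≤ K m n := fun m n => (Real.exp_pos _).le
  have hKs : ∀ m n, K m n = K n m := by
    intro m n
    show Real.exp (-((J : ℝ) * |Real.log n - Real.log m|)) =
      Real.exp (-((J : ℝ) * |Real.log m - Real.log n|))
    rw [abs_sub_comm]
  have h1 : ∫ t : ℝ, ‖DP N b t‖ ^ 2 / (1 + (t / J) ^ 2) ≤
      ∑ m ∈ Icc 1 N, ∑ n ∈ Icc 1 N, ‖b m‖ * ‖b n‖ * (Real.pi * J * K m n) := by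
    refine (le_abs_self _).trans ?_
    rw [← Real.norm_eq_abs, ← Complex.norm_real, hval]
    refine (norm_sum_le _ _).trans (Finset.sum_le_sum fun m _ => ?_)
    refine (norm_sum_le _ _).trans (Finset.sum_le_sum fun n _ => ?_)
    rw [norm_mul, norm_mul, RCLike.norm_conj, Complex.norm_real,
      Real.norm_of_nonneg (mul_nonneg (by positivity) (Real.exp_pos _).le)]
  refine h1.trans ?_
  have h2 : ∑ m ∈ Icc 1 N, ∑ n ∈ Icc 1 N, ‖b m‖ * ‖b n‖ * (Real.pi * J * K m n) ≤
      ∑ m ∈ Icc 1 N, ∑ n ∈ Icc 1 N, ((‖b m‖ ^ 2 / 2) * (Real.pi * J * K m n) +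
        (‖b n‖ ^ 2 / 2) * (Real.pi * J * K m n)) := by
    refine Finset.sum_le_sum fun m _ => Finset.sum_le_sum fun n _ => ?_
    have h3 : ‖b m‖ * ‖b n‖ ≤ ‖b m‖ ^ 2 / 2 + ‖b n‖ ^ 2 / 2 := by
      nlinarith [sq_nonneg (‖b m‖ - ‖b n‖)]
    have h4 : 0 ≤ Real.pi * J * K m n := mul_nonneg (by positivity) (hK0 m n)
    calc ‖b m‖ * ‖b n‖ * (Real.pi * J * K m n) ≤
        (‖b m‖ ^ 2 / 2 + ‖b n‖ ^ 2 / 2) * (Real.pi * J * K m n) :=
          mul_le_mul_of_nonneg_right h3 h4
      _ = _ := by ring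
  refine h2.trans ?_
  have h5 : ∑ m ∈ Icc 1 N, ∑ n ∈ Icc 1 N, (‖b n‖ ^ 2 / 2) * (Real.pi * J * K m n) =
      ∑ m ∈ Icc 1 N, ∑ n ∈ Icc 1 N, (‖b m‖ ^ 2 / 2) * (Real.pi * J * K m n) := by
    rw [Finset.sum_comm]
    refine Finset.sum_congr rfl fun m _ => Finset.sum_congr rfl fun n _ => ?_
    rw [hKs]
  simp only [Finset.sum_add_distrib]
  rw [h5, ← two_mul, Finset.mul_sum]
  unfold n2
  rw [Finset.mul_sum]
  refine Finset.sum_le_sum fun m hm => ?_
  rw [← Finset.mul_sum, ← Finset.mul_sum]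
  have h6 := cd_mv_row (J := J) (by omega) hm
  have h7 : 2 * (‖b m‖ ^ 2 / 2 * (Real.pi * J * ∑ n ∈ Icc 1 N, K m n)) ≤
      2 * (‖b m‖ ^ 2 / 2 * (Real.pi * J * (2 * (1 + (N : ℝ) / J)))) := by
    gcongr
  refine h7.trans (le_of_eq ?_)
  field_simp

end Pool.Agent.CH.D
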