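import Pool.Agent.Lib.MP_d610d0_nt.CH.D.P.fou

/-!
# MP_d610d0_nt, section D, piece [CD sb]: mean square of a bilinear form over the short windows
-/

set_option autoImplicit false

namespace Pool.Agent.CH.D

open Finset MeasureTheory ArithmeticFunction
open Pool.Agent.MP89da58 (tri primChars)
open Pool.Agent.CH.V (pz)

/-- comparison of the two scales -/
theorem cd_sb_scale {J : ℝ} (hJ : 0 < J) (t : ℝ) :
    1 / (1 + (t / (2 * J)) ^ 2) ≤ 4 / (1 + (t / J) ^ 2) := by
  rw [div_le_div_iff₀ (by positivity) (by positivity)]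
  have h : (t / (2 * J)) ^ 2 = (t / J) ^ 2 / 4 := by field_simp; ring
  rw [h]
  nlinarith [sq_nonneg (t / J)]

theorem p_sb (htri : S_tri) (hsp : S_sp) (hlsi : S_lsi) (hmv : S_mv) : S_sb := by
  obtain ⟨κ, C0, hκ⟩ := htri
  obtain ⟨C1, hC1, hls⟩ := hlsi
  obtain ⟨C2, hC2, hmain⟩ := cd_fou_main hmv
  have hC0 := cd_fou_C hκ
  refine ⟨4 * C1 * C2 * C0 ^ 2, by positivity, ?_⟩
  intro J M N hJ α β S hS hbd
  have hJ0 : (0 : ℝ) < J := by exact_mod_cast (by omega : 0 < J)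
  set G : ℝ → ℂ := fun t => ((κ (t / (2 * (J : ℝ))) : ℝ) : ℂ) * (DP M α t * DP N β t) *
    ((1 / (2 * (J : ℝ)) : ℝ) : ℂ) with hG
  have hGc : AEStronglyMeasurable G volume := by
    apply Continuous.aestronglyMeasurable
    have := cd_mv_DP_cont M α
    have := cd_mv_DP_cont N β
    have := hκ.cont
    fun_prop
  have hGb : ∀ t ∈ (Set.univ : Set ℝ),
      ‖G t‖ ≤ (2 * C0 / J) * (‖DP M α t‖ * ‖DP N β t‖) / (1 + (t / J) ^ 2) := by
    intro t _
    rw [hG]
    simp only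
    rw [norm_mul, norm_mul, norm_mul, Complex.norm_real, Complex.norm_real,
      Real.norm_of_nonneg (hκ.nn _), Real.norm_of_nonneg (by positivity)]
    have h1 := (hκ.le (t / (2 * (J : ℝ)))).trans (le_of_eq (div_eq_mul_one_div _ _))
    have h2 := h1.trans (mul_le_mul_of_nonneg_left (cd_sb_scale hJ0 t) hC0)
    have h3 : κ (t / (2 * (J : ℝ))) * (‖DP M α t‖ * ‖DP N β t‖) * (1 / (2 * (J : ℝ))) ≤
        C0 * (4 / (1 + (t / J) ^ 2)) * (‖DP M α t‖ * ‖DP N β t‖) * (1 / (2 * (J : ℝ))) := by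
      gcongr
    refine h3.trans (le_of_eq ?_)
    field_simp
    ring
  obtain ⟨hI1, hI2, hI3⟩ := hmain J M N hJ α β S hS Set.univ (fun t _ ht => hbd t ht) G
    (2 * C0 / J) (by positivity) hGc hGb (fun t ht => absurd (Set.mem_univ t) ht)
  have hBW : ∀ j, ∫ t : ℝ, G t * Complex.exp (Complex.I * ((t * yj j : ℝ) : ℂ)) =
      BW J j M N α β := by
    intro j
    have h1 := cd_fou_BW hsp hκ (by omega : 1 ≤ J) j M N α β
    have h2 : ∀ t : ℝ, G t * Complex.exp (Complex.I * ((t * yj j : ℝ) : ℂ)) =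
        ((1 / (2 * (J : ℝ)) : ℝ) : ℂ) * (((κ (t / (2 * (J : ℝ))) : ℝ) : ℂ) *
      (DP M α t * DP N β t * Complex.exp (Complex.I * ((t * yj j : ℝ) : ℂ)))) := by
      intro t
      rw [hG]
      ring
    simp only [h2]
    rw [integral_const_mul, h1]
    push_cast
    have : (J : ℂ) ≠ 0 := by exact_mod_cast hJ0.ne'
    field_simp
  have h := hls J (by omega) G hI1 hI2
  simp only [hBW] at h
  refine h.trans ((mul_le_mul_of_nonneg_left hI3 (by positivity)).trans (le_of_eq ?_))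
  field_simp
  ring

end Pool.Agent.CH.D
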