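import Pool.Agent.Lib.MP_d610d0_nt.CH.D.Stm

set_option autoImplicit false

/-!
Piece vau: the identity of Vaughan with two parameters.
-/

namespace Pool.Agent.CH.D

open Finset MeasureTheory ArithmeticFunction
open Pool.Agent.MP89da58 (tri primChars trunc trunc_apply sum_dA)
open Pool.Agent.CH.V (pz)

private lemma cd_vau_id (U V : ℕ) : (vonMangoldt : ArithmeticFunction ℝ) =
    trunc U vonMangoldt + trunc V (moebius : ArithmeticFunction ℝ) * log
      - (trunc V (moebius : ArithmeticFunction ℝ) * trunc U vonMangoldt) *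
          (zeta : ArithmeticFunction ℝ)
      + (vonMangoldt - trunc U vonMangoldt) *
        (((moebius : ArithmeticFunction ℝ) - trunc V (moebius : ArithmeticFunction ℝ)) *
          (zeta : ArithmeticFunction ℝ)) := by
  have h1 : (moebius : ArithmeticFunction ℝ) * (zeta : ArithmeticFunction ℝ) = 1 :=
    coe_moebius_mul_coe_zeta
  rw [← vonMangoldt_mul_zeta]
  set M := trunc V (moebius : ArithmeticFunction ℝ)
  set L1 := trunc U vonMangoldt
  linear_combination (-(vonMangoldt - L1)) * h1

private lemma cd_vau_sub (f g : ArithmeticFunction ℝ) (n : ℕ) : (f - g) n = f n - g n := by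
  rw [sub_eq_add_neg, ArithmeticFunction.add_apply, ArithmeticFunction.neg_apply, sub_eq_add_neg]

private lemma cd_vau_conv (X : ℕ) (w : ℕ → ℂ) (hw : ∀ n, X < n → w n = 0)
    (f g : ArithmeticFunction ℝ) :
    ∑ n ∈ Icc 1 X, (((f * g) n : ℝ) : ℂ) * w n =
      ∑ m ∈ Icc 1 X, ∑ n ∈ Icc 1 X, (f m : ℂ) * (g n : ℂ) * w (m * n) := by
  have h1 : ∀ n ∈ Icc 1 X, (((f * g) n : ℝ) : ℂ) * w n =
      ∑ x ∈ n.divisorsAntidiagonal, (f x.1 : ℂ) * (g x.2 : ℂ) * w (x.1 * x.2) := by
    intro n _
    rw [mul_apply]
    push_cast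
    rw [sum_mul]
    apply sum_congr rfl
    intro x hx
    rw [Nat.mem_divisorsAntidiagonal] at hx
    rw [← hx.1]
  rw [sum_congr rfl h1, sum_dA (fun a b : ℕ => (f a : ℂ) * (g b : ℂ) * w (a * b))]
  apply sum_congr rfl
  intro d _
  apply sum_congr rfl
  intro m _
  split_ifs with h
  · rfl
  · rw [hw _ (by omega), mul_zero]

private lemma cd_vau_mu (V n : ℕ) :
    |trunc V (moebius : ArithmeticFunction ℝ) n| ≤ 1 := by
  rw [trunc_apply]
  split_ifs
  · rw [intCoe_apply, ← Int.cast_abs]
    exact_mod_cast abs_moebius_le_one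
  · simp

private lemma cd_vau_mu' (V n : ℕ) :
    |((moebius : ArithmeticFunction ℝ) - trunc V (moebius : ArithmeticFunction ℝ)) n| ≤ 1 := by
  rw [cd_vau_sub, trunc_apply]
  split_ifs
  · simp
  · rw [sub_zero, intCoe_apply, ← Int.cast_abs]
    exact_mod_cast abs_moebius_le_one

theorem p_vau : S_vau := by
  intro U V X
  refine ⟨trunc V (moebius : ArithmeticFunction ℝ),
    (trunc V (moebius : ArithmeticFunction ℝ) * trunc U vonMangoldt : ArithmeticFunction ℝ),
    (((moebius : ArithmeticFunction ℝ) - trunc V (moebius : ArithmeticFunction ℝ)) *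
          (zeta : ArithmeticFunction ℝ) : ArithmeticFunction ℝ), ?_, ?_, ?_, ?_, ?_, ?_, ?_⟩
  · exact cd_vau_mu V
  · intro n hn
    rw [trunc_apply, if_neg (by omega)]
  · intro n hn
    rw [mul_apply]
    calc |∑ x ∈ n.divisorsAntidiagonal, trunc V (moebius : ArithmeticFunction ℝ) x.1 *
          trunc U vonMangoldt x.2|
        ≤ ∑ x ∈ n.divisorsAntidiagonal, |trunc V (moebius : ArithmeticFunction ℝ) x.1 *
          trunc U vonMangoldt x.2| := abs_sum_le_sum_abs _ _
      _ ≤ ∑ x ∈ n.divisorsAntidiagonal, vonMangoldt x.2 := by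
          apply sum_le_sum
          intro x _
          rw [abs_mul]
          have h1 := cd_vau_mu V x.1
          have h2 : |trunc U vonMangoldt x.2| ≤ vonMangoldt x.2 := by
            rw [trunc_apply]
            split_ifs
            · rw [abs_of_nonneg vonMangoldt_nonneg]
            · rw [abs_zero]; exact vonMangoldt_nonneg
          calc _ ≤ 1 * vonMangoldt x.2 :=
                mul_le_mul h1 h2 (abs_nonneg _) zero_le_one
            _ = _ := one_mul _
      _ = Real.log n := by
          rw [Nat.sum_divisorsAntidiagonal' (fun _ b => vonMangoldt b)]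
          exact vonMangoldt_sum
  · intro n hn
    rw [mul_apply]
    apply sum_eq_zero
    intro x hx
    rw [Nat.mem_divisorsAntidiagonal] at hx
    by_cases h1 : x.1 ≤ V
    · have h2 : ¬ x.2 ≤ U := by
        intro h2
        have := Nat.mul_le_mul h1 h2
        rw [hx.1, mul_comm V U] at this
        omega
      rw [trunc_apply U, if_neg h2, mul_zero]
    · rw [trunc_apply V, if_neg h1, zero_mul]
  · intro n
    rw [mul_apply, Pool.Agent.MP89da58.card_divisors_eq_sum]
    calc |∑ x ∈ n.divisorsAntidiagonal,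
          ((moebius : ArithmeticFunction ℝ) - trunc V (moebius : ArithmeticFunction ℝ)) x.1 *
          (zeta : ArithmeticFunction ℝ) x.2|
        ≤ ∑ x ∈ n.divisorsAntidiagonal,
          |((moebius : ArithmeticFunction ℝ) - trunc V (moebius : ArithmeticFunction ℝ)) x.1 *
          (zeta : ArithmeticFunction ℝ) x.2| := abs_sum_le_sum_abs _ _
      _ ≤ ∑ _x ∈ n.divisorsAntidiagonal, (1 : ℝ) := by
          apply sum_le_sum
          intro x hx
          rw [abs_mul]
          have h1 := cd_vau_mu' V x.1
          have h2 : |(zeta : ArithmeticFunction ℝ) x.2| ≤ 1 := by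
            rw [natCoe_apply, zeta_apply]
            split_ifs <;> simp
          calc _ ≤ (1 : ℝ) * 1 := mul_le_mul h1 h2 (abs_nonneg _) zero_le_one
            _ = 1 := one_mul _
  · intro n hn
    rw [mul_apply]
    apply sum_eq_zero
    intro x hx
    rw [Nat.mem_divisorsAntidiagonal] at hx
    have h1 : x.1 ≤ n := Nat.le_of_dvd (Nat.pos_of_ne_zero hx.2) ⟨x.2, hx.1.symm⟩
    rw [cd_vau_sub, trunc_apply, if_pos (by omega), sub_self, zero_mul]
  · intro w hw1 hw2
    have hlog : ∀ m ∈ Icc 1 X, ∀ n ∈ Icc 1 X,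
        (trunc V (moebius : ArithmeticFunction ℝ) m : ℂ) * (Real.log n : ℂ) * w (m * n) =
        (trunc V (moebius : ArithmeticFunction ℝ) m : ℂ) * ((log n : ℝ) : ℂ) * w (m * n) := by
      intro m _ n _
      rw [log_apply]
    have hz : ∀ m ∈ Icc 1 X, ∀ n ∈ Icc 1 X,
        (((trunc V (moebius : ArithmeticFunction ℝ) * trunc U vonMangoldt :
          ArithmeticFunction ℝ) m : ℝ) : ℂ) * w (m * n) =
        (((trunc V (moebius : ArithmeticFunction ℝ) * trunc U vonMangoldt :
          ArithmeticFunction ℝ) m : ℝ) : ℂ) * (((zeta : ArithmeticFunction ℝ) n : ℝ) : ℂ) *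
          w (m * n) := by
      intro m _ n hn
      rw [mem_Icc] at hn
      rw [natCoe_apply, zeta_apply, if_neg (by omega)]
      simp
    have ht : ∀ m ∈ Icc 1 X, ∀ n ∈ Icc 1 X,
        ((if U < m then vonMangoldt m else 0 : ℝ) : ℂ) *
        (((((moebius : ArithmeticFunction ℝ) - trunc V (moebius : ArithmeticFunction ℝ)) *
          (zeta : ArithmeticFunction ℝ) : ArithmeticFunction ℝ) n : ℝ) : ℂ) * w (m * n) =
        (((vonMangoldt - trunc U vonMangoldt : ArithmeticFunction ℝ) m : ℝ) : ℂ) *
        (((((moebius : ArithmeticFunction ℝ) - trunc V (moebius : ArithmeticFunction ℝ)) *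
          (zeta : ArithmeticFunction ℝ) : ArithmeticFunction ℝ) n : ℝ) : ℂ) * w (m * n) := by
      intro m _ n _
      congr 3
      rw [cd_vau_sub, trunc_apply]
      by_cases h : U < m
      · rw [if_pos h, if_neg (by omega), sub_zero]
      · rw [if_neg h, if_pos (by omega), sub_self]
    rw [sum_congr rfl fun m hm => sum_congr rfl fun n hn => hlog m hm n hn,
      sum_congr rfl fun m hm => sum_congr rfl fun n hn => hz m hm n hn,
      sum_congr rfl fun m hm => sum_congr rfl fun n hn => ht m hm n hn,
      ← cd_vau_conv X w hw2, ← cd_vau_conv X w hw2, ← cd_vau_conv X w hw2,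
      ← sum_sub_distrib, ← sum_add_distrib]
    apply sum_congr rfl
    intro n _
    have h1 : vonMangoldt n = trunc U vonMangoldt n +
        (trunc V (moebius : ArithmeticFunction ℝ) * log) n -
        ((trunc V (moebius : ArithmeticFunction ℝ) * trunc U vonMangoldt) *
          (zeta : ArithmeticFunction ℝ)) n +
        ((vonMangoldt - trunc U vonMangoldt) *
        (((moebius : ArithmeticFunction ℝ) - trunc V (moebius : ArithmeticFunction ℝ)) *
          (zeta : ArithmeticFunction ℝ))) n := by
      conv_lhs => rw [cd_vau_id U V]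
      rw [ArithmeticFunction.add_apply, cd_vau_sub, ArithmeticFunction.add_apply]
    have h2 : (trunc U vonMangoldt n : ℂ) * w n = 0 := by
      by_cases h : n ≤ U
      · rw [hw1 n h, mul_zero]
      · rw [trunc_apply, if_neg h]; simp
    rw [h1]
    push_cast
    linear_combination h2

end Pool.Agent.CH.D
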